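import Pool.Agent.W723.BDL.Axes

/-!
# Stationary ballistic deposition heights with linear scaling (`α = 1`)

For every `d ≥ 100000` there is a stationary law of ballistic deposition on `ℤ^d` seen from the
origin, which has integrable heights and increments invariant under translations and under all
symmetries of the lattice, such that `g(x) / |x|` converges in law along every sequence of sites
`x → ∞` which has a limiting direction `θ`, and the limit is never the point mass at `0`. It is the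
law of `∑ θ_i U_i` for one random slope `U`, and `E |g(x) - ∑ x_i U_i| = o(|x|)`. On the union of
the coordinate axes `g(x) / |x|` converges in law as `|x| → ∞` to one law `ρ`, not the point mass
at `0`.
-/

namespace Pool.Agent.Results.MP_c264fd_pr.RandomSlope

open MeasureTheory Filter Topology Pool.Agent.W833.BD

/-- The Euclidean norm of a site of `ℤ^d`. -/
noncomputable def nrm {d : ℕ} (x : V d) : ℝ := Real.sqrt (∑ i, (x i : ℝ) ^ 2)

theorem result : ∀ d : ℕ, 100000 ≤ d →
    ∃ (μ : Measure (Om d)) (_ : IsProbabilityMeasure μ) (U : Om d → Fin d → ℝ),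
      Stationary μ ∧ (∀ᵐ g ∂μ, g 0 = 0) ∧
      (∀ x : V d, Integrable (fun g : Om d => (g x : ℝ)) μ) ∧
      (∀ z : V d, μ.map (fun g y => g (y + z) - g z) = μ) ∧
      (∀ (π : Equiv.Perm (Fin d)) (s : Fin d → ℤˣ),
        μ.map (fun g y => g (fun i => (s i : ℤ) * y (π i))) = μ) ∧
      Measurable U ∧ (∀ i, Integrable (fun g => U g i) μ) ∧
      (∀ ε : ℝ, 0 < ε → ∃ M : ℝ, ∀ x : V d, M ≤ nrm x →
        ∫ g, |(g x : ℝ) - ∑ i, (x i : ℝ) * U g i| ∂μ ≤ ε * nrm x) ∧
      (∀ θ : Fin d → ℝ, θ ≠ 0 → μ.map (fun g => ∑ i, θ i * U g i) ≠ Measure.dirac 0) ∧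
      (∀ (x : ℕ → V d) (θ : Fin d → ℝ), Tendsto (fun n => nrm (x n)) atTop atTop →
        (∀ i, Tendsto (fun n => (x n i : ℝ) / nrm (x n)) atTop (𝓝 (θ i))) →
        TendstoInDistribution (fun (n : ℕ) (g : Om d) => (g (x n) : ℝ) / nrm (x n)) atTop
          (fun g => ∑ i, θ i * U g i) (fun _ => μ) μ) ∧
      ∃ (ρ : Measure ℝ) (_ : IsProbabilityMeasure ρ), ρ ≠ Measure.dirac 0 ∧
        ∀ x : ℕ → V d, (∀ n, ∃ (i : Fin d) (k : ℤ), x n = Pi.single i k) →
          Tendsto (fun n => nrm (x n)) atTop atTop →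
          TendstoInDistribution (fun (n : ℕ) (g : Om d) => (g (x n) : ℝ) / nrm (x n)) atTop
            (fun r : ℝ => r) (fun _ => μ) ρ := by
  intro d hd
  have : NeZero d := ⟨by omega⟩
  obtain ⟨ν, a, hν, ha, hmean⟩ := exists_nice hd
  have hμ := hν.symm
  have hS : ∀ (π : Equiv.Perm (Fin d)) (s : Fin d → ℤˣ),
      (Pool.Agent.W833.BD.symm ν).map (Sp π s) = Pool.Agent.W833.BD.symm ν :=
    fun π s => symm_map ν π s
  set μ := Pool.Agent.W833.BD.symm ν with hμd
  have hp : IsProbabilityMeasure μ := hμ.wstat.prob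
  have hm0 := W723.BDL.measurable_U μ (0 : Fin d)
  have hρ : IsProbabilityMeasure (μ.map (fun g => W723.BDL.U μ g 0)) :=
    Measure.isProbabilityMeasure_map hm0.aemeasurable
  refine ⟨μ, hp, W723.BDL.U μ, hμ.wstat.stationary, hμ.wstat.zero, hμ.int, hμ.trans,
    hS, W723.BDL.measurable_Uv μ, W723.BDL.integrable_U μ, ?_,
    W723.BDL.slope_ne hν ha hmean, W723.BDL.conv_law hμ,
    μ.map (fun g => W723.BDL.U μ g 0), hρ, ?_, W723.BDL.axes hμ hS⟩
  · intro ε hε
    obtain ⟨C, hC⟩ := W723.BDL.lln hμ (half_pos hε)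
    refine ⟨2 * C / ε, fun x hx => ?_⟩
    have h1 : 2 * C / ε ≤ W723.BDL.eu x := hx
    have h2 : ∫ g, |(g x : ℝ) - ∑ i, (x i : ℝ) * W723.BDL.U μ g i| ∂μ
        ≤ ε / 2 * W723.BDL.eu x + C := hC x
    show _ ≤ ε * W723.BDL.eu x
    rw [div_le_iff₀ hε] at h1
    linarith
  · intro hcon
    have h3 : (Pi.single (0 : Fin d) (1 : ℝ) : Fin d → ℝ) ≠ 0 := by
      intro h
      have := congrFun h 0
      simp at this
    refine W723.BDL.slope_ne hν ha hmean (Pi.single 0 1) h3 ?_
    have h4 : (fun g => ∑ i, (Pi.single (0 : Fin d) (1 : ℝ) : Fin d → ℝ) i * W723.BDL.U μ g i)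
        = fun g => W723.BDL.U μ g 0 := by
      funext g
      rw [Finset.sum_eq_single 0]
      · simp
      · intro j _ hj
        simp [hj]
      · intro h0
        exact absurd (Finset.mem_univ _) h0
    rw [← hμd, h4]
    exact hcon

end Pool.Agent.Results.MP_c264fd_pr.RandomSlope
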